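import Pool.Agent.R357.CF.Cantor4

set_option autoImplicit false

open Filter
open scoped Topology

namespace Pool.Agent.Results.MP_2274bf_nt.DNneNCF

/-- `x` is `Q`-distribution normal: the sequence `q_1 ⋯ q_n x mod 1` (`n ≥ 0`) is uniformly distributed
mod 1 (`q i` is the `(i+1)`-st term of the basic sequence). -/
def DistributionNormal (q : ℕ → ℕ) : Set ℝ := {x | ∀ a b : ℝ, 0 ≤ a → a < b → b ≤ 1 →
  Tendsto (fun N : ℕ => (((Finset.range N).filter (fun n =>
    a ≤ Int.fract (((∏ i ∈ Finset.range n, q i : ℕ) : ℝ) * x) ∧
      Int.fract (((∏ i ∈ Finset.range n, q i : ℕ) : ℝ) * x) < b)).card : ℝ) / N) atTop (𝓝 (b - a))}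

/-- `x` is normal with respect to the regular continued fraction expansion: `x` is irrational and the
orbit of its fractional part under the Gauss map `y ↦ 1 / y mod 1` is uniformly distributed with
respect to the Gauss measure `dy / ((1 + y) log 2)`. -/
def ContinuedFractionNormal : Set ℝ := {x | Irrational x ∧ ∀ t : ℝ, 0 ≤ t → t ≤ 1 →
  Tendsto (fun N : ℕ => (((Finset.range N).filter (fun n =>
    (fun y : ℝ => Int.fract (1 / y))^[n] (Int.fract x) < t)).card : ℝ) / N) atTop
    (𝓝 (Real.log (1 + t) / Real.log 2))}

/-- For every basic sequence `Q` the set of `Q`-distribution normal numbers is different from the set of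
numbers which are normal with respect to the regular continued fraction expansion. -/
theorem result (q : ℕ → ℕ) (hq : ∀ n, 2 ≤ q n) : DistributionNormal q ≠ ContinuedFractionNormal :=
  Pool.Agent.R357.CF.final q hq

end Pool.Agent.Results.MP_2274bf_nt.DNneNCF
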